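import Mathlib
import Pool.Agent.H.MP_75c0e8_co.ES

namespace Pool.Agent.Results.MP_75c0e8_co.Weak

open Classical in
/-- The singletons of a tuple, in their order of occurrence. -/
noncomputable def sing {A : Type} {n : ℕ} (a : Fin n → A) : List A :=
  (List.ofFn a).filter fun x => (List.ofFn a).count x = 1

/-- `f` is determined by content and singletons. -/
def DetCS {A B : Type} {n : ℕ} (f : (Fin n → A) → B) : Prop :=
  ∀ a b, (List.ofFn a).Perm (List.ofFn b) → sing a = sing b → f a = f b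

/-- Similar functions. -/
def Sim {A B : Type} {n : ℕ} (f g : (Fin n → A) → B) : Prop :=
  ∃ τ : Equiv.Perm (Fin n), ∀ a, f a = g (a ∘ τ)

/-- The identification minor: the entry `a i` is repeated at the later position `j`. -/
def minor {A B : Type} {n : ℕ} (f : (Fin (n + 1) → A) → B)
    (I : {p : Fin n × Fin (n + 1) // p.1.castSucc < p.2}) : (Fin n → A) → B :=
  fun a => f (Fin.insertNth I.1.2 (a I.1.1) a)

/-- Equal decks. -/
def SameDeck {A B : Type} {n : ℕ} (f g : (Fin (n + 1) → A) → B) : Prop :=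
  ∃ e : Equiv.Perm {p : Fin n × Fin (n + 1) // p.1.castSucc < p.2},
    ∀ I, Sim (minor f I) (minor g (e I))

def Sg {A : Type} {n : ℕ} (b : Fin n → A) (x : A) : Prop := ∃! i, b i = x

open Classical in
theorem count_one {A : Type} {n : ℕ} (b : Fin n → A) (x : A) :
    (List.ofFn b).count x = 1 ↔ Sg b x := by
  rw [← Multiset.coe_count, ← Fin.univ_val_map, Multiset.count_map]
  have : (Multiset.filter (fun a => x = b a) Finset.univ.val).card =
    (Finset.univ.filter fun a => x = b a).card := rfl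
  rw [this, Finset.card_eq_one_iff_existsUnique]
  simp [Sg, eq_comm]

theorem lemL {A B : Type} {n : ℕ} {f : (Fin n → A) → B} (hf : DetCS f) (b b' : Fin n → A)
    (hp : (List.ofFn b').Perm (List.ofFn b))
    (ho : ∀ i j, i < j → Sg b (b' i) → Sg b (b' j) → ∀ i' j', b i' = b' i → b j' = b' j → i' < j') :
    f b' = f b := by
  classical
  apply hf _ _ hp
  have h1 : sing b' = (List.ofFn b').filter fun x => (List.ofFn b).count x = 1 := by
    unfold sing
    simp only [hp.count_eq]
  rw [h1]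
  refine List.Perm.eq_of_pairwise (le := fun x y => ∃ i j, i < j ∧ b i = x ∧ b j = y) ?_ ?_ ?_
    (hp.filter _)
  · rintro x y hx hy ⟨i, j, h1, h2, h3⟩ ⟨i', j', h1', h2', h3'⟩
    have sx : Sg b x := (count_one b x).mp (by simpa using (List.mem_filter.mp hx).2)
    have sy : Sg b y := (count_one b y).mp (by simpa using (List.mem_filter.mp hy).2)
    rw [sx.unique h2 h3', sy.unique h3 h2'] at h1
    exact absurd h1 h1'.not_gt
  · rw [List.pairwise_filter, List.pairwise_ofFn]
    intro i j hij hi hj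
    have si : Sg b (b' i) := (count_one b _).mp (by simpa using hi)
    have sj : Sg b (b' j) := (count_one b _).mp (by simpa using hj)
    obtain ⟨i', hi'⟩ := si.exists
    obtain ⟨j', hj'⟩ := sj.exists
    exact ⟨i', j', ho i j hij si sj i' j' hi' hj', hi', hj'⟩
  · apply List.Pairwise.filter
    rw [List.pairwise_ofFn]
    exact fun i j hij => ⟨i, j, hij, rfl, rfl⟩

theorem perm_ins {A : Type} {n : ℕ} (j : Fin (n + 1)) (x : A) (a : Fin n → A) :
    (List.ofFn (Fin.insertNth j x a : Fin (n + 1) → A)).Perm (x :: List.ofFn a) := by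
  rw [← Multiset.coe_eq_coe, ← Multiset.cons_coe, ← Fin.univ_val_map, ← Fin.univ_val_map,
    Fin.univ_succAbove n j]
  simp

theorem triple {A : Type} [Fintype A] {m : ℕ} (h : 2 * Fintype.card A < m) (b : Fin m → A) :
    ∃ u : Fin 3 → Fin m, Function.Injective u ∧ ∀ k, b (u k) = b (u 0) := by
  classical
  obtain ⟨z, hz⟩ := Fintype.exists_lt_card_fiber_of_mul_lt_card b (n := 2) (by rw [Fintype.card_fin]; omega)
  have : Fintype.card (Fin 3) ≤ Fintype.card {i // b i = z} := by
    rw [Fintype.card_subtype, Fintype.card_fin]; exact hz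
  obtain ⟨y⟩ := Function.Embedding.nonempty_of_card_le this
  exact ⟨fun k => (y k).1, fun k l e => y.injective (Subtype.ext e), fun k => (y k).2.trans (y 0).2.symm⟩

theorem place {A : Type} [Fintype A] {n : ℕ} (h : 2 * Fintype.card A < n + 1) (b : Fin (n + 1) → A)
    (j : Fin (n + 1)) (x0 y0 : Fin n) (T : Finset (Fin n)) (hT : Fintype.card A ≤ T.card)
    (hx : x0 ∉ T) (hy : y0 ∉ T) :
    ∃ a : Fin n → A, a x0 = a y0 ∧ (a x0 :: List.ofFn a).Perm (List.ofFn b) ∧ ¬ Sg b (a x0) ∧
      (∀ t, Sg b (a t) → t ∈ T) ∧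
      ∀ s t, s < t → Sg b (a s) → Sg b (a t) → ∀ s' t', b s' = a s → b t' = a t → s' < t' := by
  classical
  obtain ⟨u, hu, hz⟩ := triple h b
  let U : Finset (Fin (n + 1)) := Finset.univ.filter fun i => Sg b (b i)
  have hU : U.card ≤ T.card := by
    refine le_trans ?_ hT
    rw [← Finset.card_univ]
    refine Finset.card_le_card_of_injOn b (fun _ _ => by simp) ?_
    intro i hi i' _ e
    have : Sg b (b i) := by simpa [U] using hi
    exact this.unique rfl e.symm
  have hns : ¬ Sg b (b (u 0)) := fun hs =>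
    absurd (hu (hs.unique (hz 1) rfl)) (by decide)
  have huU : ∀ k, u k ∉ U := by
    intro k hk
    apply hns
    rw [← hz k]
    simpa [U] using hk
  let o1 := T.orderEmbOfCardLe hU
  have ho1 : ∀ k, o1 k ∈ T := T.orderEmbOfCardLe_mem hU
  let o2 := U.orderEmbOfFin rfl
  let F : Fin U.card ⊕ Option ({x0, y0} : Finset (Fin n)) → Fin (n + 1) :=
    Sum.elim (fun k => j.succAbove (o1 k)) (fun o => o.elim j (fun t => j.succAbove t.1))
  let G : Fin U.card ⊕ Option ({x0, y0} : Finset (Fin n)) → Fin (n + 1) :=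
    Sum.elim o2 (fun o => o.elim (u 0) (fun t => if t.1 = x0 then u 1 else u 2))
  have hF : Function.Injective F := by
    rintro (k | _ | ⟨t, ht⟩) (l | _ | ⟨s, hs⟩) e <;> simp [F] at e ⊢
    · exact e
    · rw [← e] at hs
      simp only [Finset.mem_insert, Finset.mem_singleton] at hs
      rcases hs with h | h
      · exact hx (h ▸ ho1 k)
      · exact hy (h ▸ ho1 k)
    · rw [e] at ht
      simp only [Finset.mem_insert, Finset.mem_singleton] at ht
      rcases ht with h | h
      · exact hx (h ▸ ho1 l)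
      · exact hy (h ▸ ho1 l)
    · exact e
  have ho2 : ∀ k, o2 k ∈ U := U.orderEmbOfFin_mem rfl
  have hG : Function.Injective G := by
    have n1 : ∀ k l, o2 k ≠ u l := fun k l e => huU l (e ▸ ho2 k)
    have n2 : ∀ k l, u l ≠ o2 k := fun k l e => n1 k l e.symm
    rintro (k | _ | ⟨t, ht⟩) (l | _ | ⟨s, hs⟩) e <;> simp [G, n1, n2] at e ⊢
    · exact e
    · split_ifs at e <;> exact n1 _ _ e
    · split_ifs at e <;> exact absurd (hu e) (by decide)
    · split_ifs at e <;> exact n2 _ _ e
    · split_ifs at e <;> exact absurd (hu e) (by decide)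
    · simp only [Finset.mem_insert, Finset.mem_singleton] at ht hs
      split_ifs at e with h1 h2 h2
      · rw [h1, h2]
      · exact absurd (hu e) (by decide)
      · exact absurd (hu e) (by decide)
      · rw [ht.resolve_left h1, hs.resolve_left h2]
  obtain ⟨π, hπ⟩ := Equiv.Perm.exists_extending_pair F G hF hG
  have p0 : π j = u 0 := hπ (.inr none)
  have p1 : b (π (j.succAbove x0)) = b (u 0) := by
    have := hπ (.inr (some ⟨x0, by simp⟩))
    simp only [F, G, Sum.elim_inr, Option.elim, if_true] at this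
    rw [this, hz]
  have p2 : b (π (j.succAbove y0)) = b (u 0) := by
    have := hπ (.inr (some ⟨y0, by simp⟩))
    simp only [F, G, Sum.elim_inr, Option.elim] at this
    rw [this]
    split_ifs <;> exact hz _
  have p3 : ∀ t, Sg b (b (π (j.succAbove t))) → ∃ k, t = o1 k ∧ π (j.succAbove t) = o2 k := by
    intro t ht
    have : π (j.succAbove t) ∈ Set.range o2 := by
      rw [Finset.range_orderEmbOfFin]
      simpa [U] using ht
    obtain ⟨k, hk⟩ := this
    have h1 : π (j.succAbove (o1 k)) = o2 k := hπ (.inl k)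
    exact ⟨k, Fin.succAbove_right_injective (π.injective (hk.symm.trans h1.symm)), hk.symm⟩
  refine ⟨fun t => b (π (j.succAbove t)), p1.trans p2.symm, ?_, fun h => hns (p1 ▸ h), ?_, ?_⟩
  · refine (perm_ins j _ _).symm.trans ?_
    have : (Fin.insertNth j (b (π (j.succAbove x0))) (fun t => b (π (j.succAbove t))) :
        Fin (n + 1) → A) = b ∘ π := by
      rw [Fin.insertNth_eq_iff]
      exact ⟨by simp [p1, p0], rfl⟩
    rw [this]
    exact Equiv.Perm.ofFn_comp_perm π b
  · intro t ht
    obtain ⟨k, rfl, -⟩ := p3 t ht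
    exact ho1 k
  · intro s t hst hs ht s' t' e1 e2
    obtain ⟨k, rfl, hk⟩ := p3 s hs
    obtain ⟨l, rfl, hl⟩ := p3 t ht
    rw [hs.unique e1 rfl, ht.unique e2 rfl, hk, hl]
    exact o2.strictMono (o1.lt_iff_lt.mp hst)

theorem finite_case {A B : Type} [Fintype A] {n : ℕ}
    (hn : (Fintype.card A + 2) * (Fintype.card A + 2) < n) (f g : (Fin (n + 1) → A) → B)
    (hf : DetCS f) (hg : DetCS g) (hd : SameDeck f g) : Sim f g := by
  classical
  obtain ⟨e, he⟩ := hd
  have hn0 : 0 < n := by omega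
  let I : {p : Fin n × Fin (n + 1) // p.1.castSucc < p.2} :=
    ⟨(⟨0, hn0⟩, Fin.last n), Fin.castSucc_lt_last _⟩
  obtain ⟨τ, hτ⟩ := he I
  set j := I.1.2
  set x0 := I.1.1
  set j' := (e I).1.2
  set i' := (e I).1.1
  have hτ' : ∀ a : Fin n → A, f (Fin.insertNth j (a x0) a) =
      g (Fin.insertNth j' (a (τ i')) (a ∘ τ)) := hτ
  have h2 : 2 * Fintype.card A < n + 1 := by nlinarith
  have hins : ∀ (j : Fin (n + 1)) (x : A) (a : Fin n → A) (b : Fin (n + 1) → A) (i : Fin (n + 1)),
      ¬ Sg b x → Sg b ((Fin.insertNth j x a : Fin (n + 1) → A) i) → ∃ t, i = j.succAbove t := by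
    intro j x a b i hx hi
    by_cases h : i = j
    · subst h; simp at hi; exact (hx hi).elim
    · obtain ⟨t, ht⟩ := Fin.exists_succAbove_eq h
      exact ⟨t, ht.symm⟩
  have main : ∀ (T0 : Finset (Fin n)), Fintype.card A + 2 < T0.card → ∀ b : Fin (n + 1) → A,
      ∃ a : Fin n → A, f b = g (Fin.insertNth j' (a (τ i')) (a ∘ τ)) ∧
        (List.ofFn (Fin.insertNth j' (a (τ i')) (a ∘ τ) : Fin (n + 1) → A)).Perm (List.ofFn b) ∧
        ¬ Sg b (a (τ i')) ∧ (∀ t, Sg b (a t) → t ∈ T0) ∧
        ∀ s t, s < t → Sg b (a s) → Sg b (a t) → ∀ s' t', b s' = a s → b t' = a t → s' < t' := by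
    intro T0 hT b
    obtain ⟨a, a1, a2, a3, a4, a5⟩ := place h2 b j x0 (τ i') ((T0.erase x0).erase (τ i')) (by
      have h1 := Finset.pred_card_le_card_erase (s := T0) (a := x0)
      have h2 := Finset.pred_card_le_card_erase (s := T0.erase x0) (a := τ i')
      omega) (by simp) (by simp)
    refine ⟨a, ?_, ?_, a1 ▸ a3, fun t ht =>
      Finset.mem_of_mem_erase (Finset.mem_of_mem_erase (a4 t ht)), a5⟩
    · rw [← hτ']
      refine (lemL hf b _ ((perm_ins _ _ _).trans a2) ?_).symm
      intro s t hst hs ht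
      obtain ⟨s, rfl⟩ := hins _ _ _ _ _ a3 hs
      obtain ⟨t, rfl⟩ := hins _ _ _ _ _ a3 ht
      simp only [Fin.insertNth_apply_succAbove] at hs ht ⊢
      exact a5 s t (Fin.succAbove_lt_succAbove_iff.mp hst) hs ht
    · refine (perm_ins _ _ _).trans (List.Perm.trans ?_ a2)
      rw [a1]
      exact (Equiv.Perm.ofFn_comp_perm τ a).cons _
  rcases Pool.Agent.H.MP_75c0e8_co.erdos_szekeres (f := τ.symm) (by simpa using hn)
    τ.symm.injective with ⟨T, hT, hm⟩ | ⟨T, hT, hm⟩
  · refine ⟨1, fun b => ?_⟩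
    obtain ⟨a, a1, a2, a3, a4, a5⟩ := main T hT b
    rw [a1]
    refine lemL hg b _ a2 ?_
    intro s t hst hs ht
    obtain ⟨s, rfl⟩ := hins _ _ _ _ _ a3 hs
    obtain ⟨t, rfl⟩ := hins _ _ _ _ _ a3 ht
    simp only [Fin.insertNth_apply_succAbove, Function.comp] at hs ht ⊢
    refine a5 _ _ ((hm.lt_iff_lt (a4 _ hs) (a4 _ ht)).mp ?_) hs ht
    simpa using hst
  · refine ⟨Fin.revPerm, fun b => ?_⟩
    obtain ⟨a, a1, a2, a3, a4, a5⟩ := main T hT b
    rw [a1]
    have hs : ∀ x, Sg (b ∘ Fin.revPerm) x → Sg b x := by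
      rintro x ⟨i, h1, h2⟩
      refine ⟨i.rev, h1, fun k hk => ?_⟩
      rw [← h2 k.rev (by simpa using hk), Fin.rev_rev]
    refine lemL hg _ _ (a2.trans (Equiv.Perm.ofFn_comp_perm _ b).symm) ?_
    intro s t hst hs' ht'
    have hs1 := hs _ hs'
    have ht1 := hs _ ht'
    obtain ⟨s, rfl⟩ := hins _ _ _ _ _ a3 hs1
    obtain ⟨t, rfl⟩ := hins _ _ _ _ _ a3 ht1
    simp only [Fin.insertNth_apply_succAbove, Function.comp] at hs1 ht1 ⊢
    intro s' t' e1 e2
    have := a5 _ _ ((hm.lt_iff_gt (a4 _ hs1) (a4 _ ht1)).mp (by simpa using hst)) ht1 hs1 _ _ e2 e1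
    simpa using this

theorem result (A B : Type) :
    (Finite A → ∃ N, ∀ n ≥ N, ∀ f g : (Fin (n + 1) → A) → B,
      DetCS f → DetCS g → SameDeck f g → Sim f g) ∧
    (Infinite A → Nontrivial B → ∀ n, ∃ f g : (Fin (n + 1) → A) → B,
      DetCS f ∧ DetCS g ∧ SameDeck f g ∧ ¬ Sim f g) := by
  classical
  constructor
  · intro _
    have := Fintype.ofFinite A
    exact ⟨_, fun n hn f g => finite_case (Nat.lt_of_succ_le hn) f g⟩
  · intro _ _ n
    obtain ⟨b0, b1, hb⟩ := exists_pair_ne B
    refine ⟨fun _ => b0, fun a => if Function.Injective a then b1 else b0, fun _ _ _ _ => rfl,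
      ?_, ⟨1, fun I => ⟨1, fun a => ?_⟩⟩, ?_⟩
    · intro a b h _
      simp only [← List.nodup_ofFn, h.nodup_iff]
    · simp only [minor]
      rw [if_neg]
      intro h
      exact Fin.succAbove_ne _ _ (h (a₁ := I.1.2.succAbove I.1.1) (a₂ := I.1.2) (by simp))
    · rintro ⟨τ, h⟩
      have h1 : Function.Injective fun i : Fin (n + 1) => Infinite.natEmbedding A i.val :=
        fun i j e => Fin.ext ((Infinite.natEmbedding A).injective e)
      have := h fun i => Infinite.natEmbedding A i.val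
      simp only [h1.comp τ.injective, if_true] at this
      exact hb this

end Pool.Agent.Results.MP_75c0e8_co.Weak
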